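import Pool.Agent.NBT.StmtsE
import Pool.Agent.NTW.StmtsD
import Pool.Agent.Helper34_NTW.PIG

/-!
# Row PGH of the squad NBT (pigeonhole modulo the group)
-/

set_option autoImplicit false

open Matrix Filter Topology

namespace Pool.Agent.NBT.H60

open Pool.Agent.PFS Pool.Agent.PFJ Pool.Agent.NTW

variable {n K : ℕ}

/-- a compact set which meets the orbit of the centre of every simplex of the family -/
theorem exists_K0 {C : Set (V n)} {Γ Γ₀ : Subgroup (GL (Fin n) ℝ)} {T : (Fin K → V n) → Prop}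
    (hC : IsOpen C) (hF : FAM C Γ Γ₀ T) :
    ∃ K0 : Set (V n), IsCompact K0 ∧ K0 ⊆ C ∧
      ∀ w, T w → ∃ g ∈ Γ₀, ∃ s : ℝ, 0 < s ∧ s • act g (∑ i, w i) ∈ K0 := by
  by_contra hcon
  push Not at hcon
  let Kj : ℕ → Set (V n) := fun j =>
    Metric.closedBall 0 (j : ℝ) ∩ (Metric.thickening (1 / ((j : ℝ) + 1)) Cᶜ)ᶜ
  have hKc : ∀ j, IsCompact (Kj j) := fun j =>
    (isCompact_closedBall 0 _).inter_right Metric.isOpen_thickening.isClosed_compl
  have hKC : ∀ j, Kj j ⊆ C := by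
    intro j x hx
    by_contra hxC
    exact hx.2 (Metric.self_subset_thickening (by positivity) _ hxC)
  have h : ∀ j, ∃ w, T w ∧ ∀ g ∈ Γ₀, ∀ s : ℝ, 0 < s → s • act g (∑ i, w i) ∉ Kj j :=
    fun j => hcon (Kj j) (hKc j) (hKC j)
  choose x hxT hx using h
  obtain ⟨φ, g, s, p, hφ, hg, hs, hp, hlim⟩ := hF.cpt x hxT
  obtain ⟨r, hr, hball⟩ := Metric.isOpen_iff.mp hC p hp
  have e1 := hlim.eventually (Metric.ball_mem_nhds p (half_pos hr))
  have e2 : ∀ᶠ m : ℕ in atTop, ‖p‖ + r ≤ (m : ℝ) :=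
    tendsto_natCast_atTop_atTop.eventually_ge_atTop _
  have e3 : ∀ᶠ m : ℕ in atTop, 1 / ((m : ℝ) + 1) < r / 2 :=
    tendsto_one_div_add_atTop_nhds_zero_nat.eventually_lt_const (half_pos hr)
  obtain ⟨m, h1, h2, h3⟩ := (e1.and (e2.and e3)).exists
  have hm : (m : ℝ) ≤ (φ m : ℝ) := by exact_mod_cast hφ.id_le m
  refine hx (φ m) (g m) (hg m) (s m) (hs m) ⟨?_, ?_⟩
  · rw [Metric.mem_closedBall, dist_zero_right]
    have := norm_sub_norm_le (s m • act (g m) (∑ i, x (φ m) i)) p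
    rw [dist_eq_norm] at h1
    linarith
  · intro hth
    obtain ⟨y, hy, hxy⟩ := Metric.mem_thickening_iff.mp hth
    refine hy (hball ?_)
    have h4 : 1 / ((φ m : ℝ) + 1) ≤ 1 / ((m : ℝ) + 1) := by
      apply one_div_le_one_div_of_le (by positivity)
      linarith
    rw [Metric.mem_ball]
    have := dist_triangle y (s m • act (g m) (∑ i, x (φ m) i)) p
    rw [dist_comm] at hxy
    linarith

/-- **Row PGH** -/
theorem pgh : PghStmt := by
  classical
  intro n C Γ Γ₀ K T c hTB ε hε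
  have hCC : CC C Γ := hTB.cc
  have hF : FAM C Γ Γ₀ T := hTB.toFAM
  obtain ⟨K0, hK0, hK0C, hK0c⟩ := exists_K0 hCC.isOpen hF
  let S : Set (Fin K → V n) := {w | T w ∧ ∑ m, w m ∈ K0}
  have hSseq : IsSeqCompact S := by
    intro x hx
    obtain ⟨p, hp, φ, hφ, hlim⟩ := hK0.tendsto_subseq (fun m => (hx m).2)
    have hcard : 2 ≤ Fintype.card (Fin K) := by
      rw [Fintype.card_fin]
      have := hTB.three
      omega
    obtain ⟨ψ, w, hψ, hw, hsum, hpes⟩ := Pool.Agent.PFS.H37.lpsF n C Γ hCC (Fin K) hcard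
      (fun m => x (φ m)) p (fun m => hF.pes _ (hx (φ m)).1) (hK0C hp) hlim
    have htt : T w := hF.cld (fun m => x (φ (ψ m))) w (fun m => (hx (φ (ψ m))).1) hw
      (by rw [hsum]; exact hK0C hp)
    refine ⟨w, ⟨htt, ?_⟩, φ ∘ ψ, hφ.comp hψ, ?_⟩
    · rw [hsum]; exact hp
    · exact tendsto_pi_nhds.mpr hw
  have hSc : IsCompact S := hSseq.isCompact
  have hnear : ∀ w ∈ S, ∃ U ∈ 𝓝 w, ∀ w1 ∈ U, ∀ w2 ∈ U, TN C ε w1 w2 := fun w hw =>
    Pool.Agent.NTW.H34.tn_near hCC.toPCone hε (hF.pes w hw.1).1.sum_mem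
  choose! U hU hUn using hnear
  obtain ⟨F, hFS, hcov⟩ := hSc.elim_nhds_subcover U hU
  refine ⟨F.card, ?_⟩
  intro W hW
  have hg : ∀ m, ∃ g ∈ Γ₀, ∃ t : ℝ, 0 < t ∧ t • act g (∑ i, W m i) ∈ K0 := fun m =>
    hK0c (W m) (hW m)
  choose g hgΓ t ht hgK using hg
  have hgΓ' : ∀ m, g m ∈ Γ := fun m => hF.sub (hgΓ m)
  have hmem : ∀ m, (fun i => t m • act (g m) (W m i)) ∈ S := by
    intro m
    refine ⟨hF.scl _ (hF.inv (W m) (hW m) (g m) (hgΓ m)) (fun _ => t m) (fun _ => ht m), ?_⟩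
    have e : ∑ i, t m • act (g m) (W m i) = t m • act (g m) (∑ i, W m i) := by
      rw [CC.act_sum, Finset.smul_sum]
    rw [e]
    exact hgK m
  have hch : ∀ m, ∃ y ∈ F, (fun i => t m • act (g m) (W m i)) ∈ U y := by
    intro m
    have := hcov (hmem m)
    simpa using this
  choose y hyT hyU using hch
  have hlt : F.card < (Finset.univ : Finset (Fin (F.card + 1))).card := by
    rw [Finset.card_univ, Fintype.card_fin]
    exact Nat.lt_succ_self _
  obtain ⟨m, -, m', -, hne, heq⟩ := Finset.exists_ne_map_eq_of_card_lt_of_maps_to hlt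
    (f := y) (fun m _ => hyT m)
  refine ⟨m, m', hne, (g m)⁻¹ * g m', Γ₀.mul_mem (Γ₀.inv_mem (hgΓ m)) (hgΓ m'),
    (t m)⁻¹ * t m', mul_pos (inv_pos.mpr (ht m)) (ht m'), ?_⟩
  have htn : TN C ε (fun i => t m • act (g m) (W m i)) (fun i => t m' • act (g m') (W m' i)) :=
    hUn (y m) (hFS _ (hyT m)) _ (hyU m) _ (by rw [heq]; exact hyU m')
  have hact : ∀ x : V n, t m • act (g m) (((t m)⁻¹ * t m') • act ((g m)⁻¹ * g m') x) =
      t m' • act (g m') x := by
    intro x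
    rw [CC.act_smul, CC.act_mul, CC.act_act_inv, smul_smul, ← mul_assoc,
      mul_inv_cancel₀ (ht m).ne', one_mul]
  intro i
  obtain ⟨q1, q2, q3, q4⟩ := htn i
  have e0 : ∀ (a b d : V n), t m • act (g m) (ε • a - (b - d)) =
      ε • (t m • act (g m) a) - (t m • act (g m) b - t m • act (g m) d) := by
    intro a b d
    rw [CC.act_sub, CC.act_sub, CC.act_smul, smul_sub, smul_sub, smul_comm (t m) ε]
  have e0' : ∀ (a b d : V n), t m • act (g m) (ε • a + (b - d)) =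
      ε • (t m • act (g m) a) + (t m • act (g m) b - t m • act (g m) d) := by
    intro a b d
    rw [CC.act_add, CC.act_sub, CC.act_smul, smul_add, smul_sub, smul_comm (t m) ε]
  have s1 : t m • act (g m) (∑ i, W m i) = ∑ i, t m • act (g m) (W m i) := by
    rw [CC.act_sum, Finset.smul_sum]
  refine ⟨?_, ?_⟩
  · rw [← hCC.sact_cl_iff (hgΓ' m) (ht m), e0, hact, s1]
    have : ε • (∑ i, t m • act (g m) (W m i)) -
        (t m' • act (g m') (W m' i) - t m • act (g m) (W m i)) =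
        ε • (∑ i, t m • act (g m) (W m i)) +
        (t m • act (g m) (W m i) - t m' • act (g m') (W m' i)) := by abel
    rw [this]
    exact q2
  · rw [← hCC.sact_cl_iff (hgΓ' m) (ht m), e0', hact, s1]
    have : ε • (∑ i, t m • act (g m) (W m i)) +
        (t m' • act (g m') (W m' i) - t m • act (g m) (W m i)) =
        ε • (∑ i, t m • act (g m) (W m i)) -
        (t m • act (g m) (W m i) - t m' • act (g m') (W m' i)) := by abel
    rw [this]
    exact q1

end Pool.Agent.NBT.H60
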